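import Pool.Agent.Lib.MP_c7af3c_ag.EDGE.Iface

/-!
# MP_c7af3c_ag, project EDGE, module PLEM: linear algebra of section 2
-/

set_option autoImplicit false

namespace Pool.Agent.Edge.H87

open Function

section

variable {Ω Q ι : Type} [Field Ω] [AddCommGroup Q] [Module Ω Q] [Fintype ι] [DecidableEq ι]

/-- A vector all of whose coordinates with respect to a family of nonzero volume vanish is zero. -/
lemma eq_zero_of_update (ω : Q [⋀^ι]→ₗ[Ω] Ω) (w : ι → Q) (hw : ω w ≠ 0) [Nonempty ι]
    (hcard : Fintype.card ι = Module.finrank Ω Q) (u : Q)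
    (h : ∀ t, ω (update w t u) = 0) : u = 0 := by
  have hli : LinearIndependent Ω w := by
    by_contra hcon
    exact hw (ω.map_linearDependent w hcon)
  let b := basisOfLinearIndependentOfCardEqFinrank hli hcard
  have hb : ∀ i, b i = w i := fun i => by simp [b]
  have hcoord : ∀ t, b.repr u t = 0 := by
    intro t
    have h1 : ω.toMultilinearMap.toLinearMap w t u = 0 := h t
    rw [← b.sum_repr u, map_sum] at h1
    rw [Finset.sum_eq_single t] at h1
    · rw [map_smul, hb] at h1
      have h2 : ω.toMultilinearMap.toLinearMap w t (w t) = ω w := by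
        change ω (update w t (w t)) = ω w
        rw [update_eq_self]
      rw [h2, smul_eq_mul] at h1
      exact (mul_eq_zero.mp h1).resolve_right hw
    · intro i _ hi
      rw [map_smul, hb]
      have h2 : ω.toMultilinearMap.toLinearMap w t (w i) = 0 := by
        change ω (update w t (w i)) = 0
        exact ω.map_update_self w (Ne.symm hi)
      rw [h2, smul_zero]
    · intro ht
      exact absurd (Finset.mem_univ t) ht
  rw [← b.sum_repr u]
  exact Finset.sum_eq_zero fun i _ => by rw [hcoord i, zero_smul]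

end

section

variable {Ω Q K : Type} [Field Ω] [AddCommGroup Q] [Module Ω Q] [AddCommGroup K] {e : ℕ}

/-- the family of the pairs -/
def ww (v₁ v₂ : K →+ Q) (A : Fin e → K) : Fin e ⊕ Fin e → Q :=
  Sum.elim (fun j => v₁ (A j)) fun j => v₂ (A j)

lemma ww_update (v₁ v₂ : K →+ Q) (A : Fin e → K) (j : Fin e) (B : K) :
    ww v₁ v₂ (update A j B) = update (update (ww v₁ v₂ A) (Sum.inl j) (v₁ B)) (Sum.inr j)
      (v₂ B) := by
  funext t
  rcases t with t | t
  · by_cases h : t = j
    · simp only [ww, update_apply, Sum.elim_inl, reduceCtorEq, if_false, h, if_true]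
    · simp only [ww, update_apply, Sum.elim_inl, reduceCtorEq, if_false, Sum.inl.injEq, h]
  · by_cases h : t = j
    · simp only [ww, update_apply, Sum.elim_inr, h, if_true]
    · simp only [ww, update_apply, Sum.elim_inr, reduceCtorEq, if_false, Sum.inr.injEq, h]

variable (ω : Q [⋀^(Fin e ⊕ Fin e)]→ₗ[Ω] Ω) (v₁ v₂ κ : K →+ Q)

/-- Polarisation in the left column. -/
lemma polar_left
    (h1 : ∀ (A : Fin e → K) (s : Fin e), ω (update (ww v₁ v₂ A) (Sum.inl s) (κ (A s))) = 0)
    (A : Fin e → K) (j l : Fin e) : ω (update (ww v₁ v₂ A) (Sum.inl j) (κ (A l))) = 0 := by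
  by_cases hjl : j = l
  · subst hjl; exact h1 A j
  have h := h1 (update A j (A j + A l)) j
  have hne : (Sum.inl j : Fin e ⊕ Fin e) ≠ Sum.inr j := by simp only [ne_eq, reduceCtorEq,
    not_false_eq_true]
  rw [ww_update, update_self, update_comm hne, update_idem, map_add, map_add,
    update_comm hne.symm, ω.map_update_add] at h
  set W' := update (ww v₁ v₂ A) (Sum.inl j) (κ (A j) + κ (A l)) with hW'
  have e1 : ω (update W' (Sum.inr j) (v₂ (A l))) = 0 := by
    refine ω.map_eq_zero_of_eq _ (i := Sum.inr j) (j := Sum.inr l) ?_ ?_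
    · simp only [hW', update_apply, ww, Sum.elim_inr, reduceCtorEq, if_false, Sum.inr.injEq,
        Ne.symm hjl, if_true]
    · simp only [ne_eq, Sum.inr.injEq, hjl, not_false_eq_true]
  have e2 : update W' (Sum.inr j) (v₂ (A j)) = W' := by
    have : W' (Sum.inr j) = v₂ (A j) := by
      simp only [hW', update_apply, ww, Sum.elim_inr, reduceCtorEq, if_false]
    rw [← this, update_eq_self]
  rw [e1, e2, add_zero, hW', ω.map_update_add, h1 A j, zero_add] at h
  exact h

/-- Polarisation in the right column. -/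
lemma polar_right
    (h2 : ∀ (A : Fin e → K) (s : Fin e), ω (update (ww v₁ v₂ A) (Sum.inr s) (κ (A s))) = 0)
    (A : Fin e → K) (j l : Fin e) : ω (update (ww v₁ v₂ A) (Sum.inr j) (κ (A l))) = 0 := by
  by_cases hjl : j = l
  · subst hjl; exact h2 A j
  have h := h2 (update A j (A j + A l)) j
  have hne : (Sum.inl j : Fin e ⊕ Fin e) ≠ Sum.inr j := by simp only [ne_eq, reduceCtorEq,
    not_false_eq_true]
  rw [ww_update, update_self, update_idem, map_add, map_add,
    update_comm hne, ω.map_update_add] at h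
  set W' := update (ww v₁ v₂ A) (Sum.inr j) (κ (A j) + κ (A l)) with hW'
  have e1 : ω (update W' (Sum.inl j) (v₁ (A l))) = 0 := by
    refine ω.map_eq_zero_of_eq _ (i := Sum.inl j) (j := Sum.inl l) ?_ ?_
    · simp only [hW', update_apply, ww, Sum.elim_inl, reduceCtorEq, if_false, Sum.inl.injEq,
        Ne.symm hjl, if_true]
    · simp only [ne_eq, Sum.inl.injEq, hjl, not_false_eq_true]
  have e2 : update W' (Sum.inl j) (v₁ (A j)) = W' := by
    have : W' (Sum.inl j) = v₁ (A j) := by
      simp only [hW', update_apply, ww, Sum.elim_inl, reduceCtorEq, if_false]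
    rw [← this, update_eq_self]
  rw [e1, e2, add_zero, hW', ω.map_update_add, h2 A j, zero_add] at h
  exact h

/-- The volume of the pairs is a polynomial of degree at most two in one slot. -/
lemma quad (A : Fin e → K) (j : Fin e) (B : K) : ∃ b c : Ω, ∀ t : ℕ,
    ω (ww v₁ v₂ (update A j (A j + t • B))) = ω (ww v₁ v₂ A) + t * b + t ^ 2 * c := by
  have hne : (Sum.inl j : Fin e ⊕ Fin e) ≠ Sum.inr j := by simp only [ne_eq, reduceCtorEq,
    not_false_eq_true]
  set W := ww v₁ v₂ A with hW
  have a1 : W (Sum.inl j) = v₁ (A j) := rfl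
  have a2 : W (Sum.inr j) = v₂ (A j) := rfl
  refine ⟨ω (update W (Sum.inl j) (v₁ B)) + ω (update W (Sum.inr j) (v₂ B)),
    ω (update (update W (Sum.inl j) (v₁ B)) (Sum.inr j) (v₂ B)), fun t => ?_⟩
  rw [ww_update, map_add, map_add, map_nsmul, map_nsmul, ← Nat.cast_smul_eq_nsmul Ω t (v₁ B),
    ← Nat.cast_smul_eq_nsmul Ω t (v₂ B), ω.map_update_add, ω.map_update_smul,
    update_comm hne, update_comm hne, ω.map_update_add, ω.map_update_smul, ω.map_update_add,
    ω.map_update_smul]
  have e1 : update (update W (Sum.inr j) (v₂ (A j))) (Sum.inl j) (v₁ (A j)) = W := by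
    rw [← a1, ← a2, update_eq_self, update_eq_self]
  have e2 : update (update W (Sum.inr j) (v₂ (A j))) (Sum.inl j) (v₁ B) =
      update W (Sum.inl j) (v₁ B) := by
    rw [← a2, update_eq_self]
  have e3 : update (update W (Sum.inr j) (v₂ B)) (Sum.inl j) (v₁ (A j)) =
      update W (Sum.inr j) (v₂ B) := by
    rw [update_comm hne.symm, ← a1, update_eq_self]
  have e4 : update (update W (Sum.inr j) (v₂ B)) (Sum.inl j) (v₁ B) =
      update (update W (Sum.inl j) (v₁ B)) (Sum.inr j) (v₂ B) := by
    rw [update_comm hne.symm]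
  rw [e1, e2, e3, e4]
  simp only [smul_eq_mul]
  ring

end

/-- Module PLEM. -/
theorem plem : PlemStatement := by
  intro Ω Q K _ _ _ _ _ e hdim he ω v₁ v₂ κ h1 h2 hA
  have : Nonempty (Fin e ⊕ Fin e) := ⟨Sum.inl ⟨0, he⟩⟩
  have hcard : Fintype.card (Fin e ⊕ Fin e) = Module.finrank Ω Q := by
    rw [hdim, Fintype.card_sum, Fintype.card_fin, two_mul]
  -- all the members of a good family are killed by `κ`
  have key : ∀ A : Fin e → K, ω (ww v₁ v₂ A) ≠ 0 → ∀ l, κ (A l) = 0 := by
    intro A hA l
    refine eq_zero_of_update ω (ww v₁ v₂ A) hA hcard (κ (A l)) ?_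
    rintro (j | j)
    · exact polar_left ω v₁ v₂ κ h1 A j l
    · exact polar_right ω v₁ v₂ κ h2 A j l
  obtain ⟨A, hA⟩ := hA
  change ω (ww v₁ v₂ A) ≠ 0 at hA
  intro B
  obtain ⟨b, c, hbc⟩ := quad ω v₁ v₂ A ⟨0, he⟩ B
  obtain ⟨t, ht, hne⟩ : ∃ t : ℕ, 0 < t ∧
      ω (ww v₁ v₂ (update A ⟨0, he⟩ (A ⟨0, he⟩ + t • B))) ≠ 0 := by
    by_contra hcon
    push Not at hcon
    have q1 := (hbc 1).symm.trans (hcon 1 (by norm_num))
    have q2 := (hbc 2).symm.trans (hcon 2 (by norm_num))
    have q3 := (hbc 3).symm.trans (hcon 3 (by norm_num))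
    apply hA
    push_cast at q1 q2 q3
    linear_combination 3 * q1 - 3 * q2 + q3
  have k1 := key _ hne ⟨0, he⟩
  rw [update_self, map_add, key A hA, zero_add, map_nsmul, ← Nat.cast_smul_eq_nsmul Ω] at k1
  rcases smul_eq_zero.mp k1 with h | h
  · exact absurd (Nat.cast_eq_zero.mp h) (by omega)
  · exact h

end Pool.Agent.Edge.H87
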